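import Mathlib
import Pool.Agent.R376.Per73c

namespace Pool.Agent.Results.MP_73edb1_nt.PermSq

open Pool.Agent.R376.Per73 Finset Equiv

/-- For every odd prime `p`, the permanent of the `p × p` integer matrix `[i - l + δ_{il}]`
(rows and columns indexed by `Fin p`; shifting both indices by `1` does not change `i - l`) is
congruent to `4 p + 1` modulo `p ^ 2`. -/
theorem result (p : ℕ) (hp : p.Prime) (hodd : p ≠ 2) :
    (Matrix.of (fun i l : Fin p => (i : ℤ) - (l : ℤ) + if i = l then 1 else 0)).permanent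
      ≡ 4 * (p : ℤ) + 1 [ZMOD (p : ℤ) ^ 2] := by
  have hfact : Fact p.Prime := ⟨hp⟩
  obtain ⟨n, rfl⟩ : ∃ n, p = n + 1 := ⟨p - 1, by have := hp.pos; omega⟩
  have h := Phi_value (p := n + 1) hodd
    (fun i => ((i.val : ℕ) : ZMod ((n + 1) ^ 2))) (fun i => by
      rw [red_natCast, ZMod.natCast_zmod_val])
  have h1 : (((Matrix.of (fun i l : Fin (n + 1) =>
      (i : ℤ) - (l : ℤ) + if i = l then 1 else 0)).permanent : ℤ) : ZMod ((n + 1) ^ 2))
      = Phi (p := n + 1) (fun i => ((i.val : ℕ) : ZMod ((n + 1) ^ 2))) := by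
    rw [← Matrix.permanent_transpose]
    unfold Matrix.permanent Phi
    rw [Int.cast_sum]
    refine Finset.sum_congr rfl (fun σ _ => ?_)
    rw [Int.cast_prod]
    unfold mv
    have h2 : ∀ i : Fin (n + 1), (((Matrix.of (fun i l : Fin (n + 1) =>
        (i : ℤ) - (l : ℤ) + if i = l then 1 else 0)).transpose (σ i) i : ℤ) : ZMod ((n + 1) ^ 2))
        = if i ∈ (Perm.support σ) then
          (((i : ℕ) : ZMod ((n + 1) ^ 2)) - (((σ i : Fin (n + 1)) : ℕ) : ZMod ((n + 1) ^ 2)))
          else 1 := by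
      intro i
      rw [Matrix.transpose_apply, Matrix.of_apply]
      by_cases hi : σ i = i
      · have hns : i ∉ Perm.support σ := by rw [Perm.mem_support]; exact not_not.2 hi
        rw [if_neg hns, hi, if_pos rfl]
        simp
      · have hs : i ∈ Perm.support σ := Perm.mem_support.2 hi
        rw [if_pos hs, if_neg (Ne.symm hi)]
        push_cast
        ring
    rw [Finset.prod_congr rfl (fun i _ => h2 i)]
    exact (Finset.prod_ite_mem Finset.univ (Perm.support σ) _).trans (by
      rw [Finset.univ_inter]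
      rfl)
  rw [h] at h1
  have h3 := (ZMod.intCast_eq_intCast_iff ((Matrix.of (fun i l : Fin (n + 1) =>
      (i : ℤ) - (l : ℤ) + if i = l then 1 else 0)).permanent)
      (4 * ((n + 1 : ℕ) : ℤ) + 1) ((n + 1) ^ 2)).1 (by rw [h1]; push_cast; ring)
  have h4 : (((n + 1) ^ 2 : ℕ) : ℤ) = ((n + 1 : ℕ) : ℤ) ^ 2 := by push_cast; ring
  rw [h4] at h3
  exact h3

end Pool.Agent.Results.MP_73edb1_nt.PermSq
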